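import Mathlib
import Pool.Agent.H16.UnitFr4

set_option autoImplicit false

namespace Pool.Agent.Results.MP_47c171_nt.Asymp
open Filter Topology

/-- Some choice of signs makes the signed reciprocals of A add up to zero, while no non-empty
proper subset of A has signed sum zero. -/
def Admissible (A : Finset ℕ) : Prop :=
  ∃ δ : ℕ → ℤ, (∀ n ∈ A, δ n = -1 ∨ δ n = 1) ∧ ∑ n ∈ A, (δ n : ℝ) / n = 0 ∧
    ∀ A' : Finset ℕ, A'.Nonempty → A' ⊂ A → ∑ n ∈ A', (δ n : ℝ) / n ≠ 0

open Classical in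
/-- The largest cardinality of an admissible subset of {1, ..., N}. -/
noncomputable def c (N : ℕ) : ℕ :=
  ((Finset.Icc 1 N).powerset.filter Admissible).sup Finset.card

theorem result : Tendsto (fun N : ℕ => (c N : ℝ) / N) atTop (𝓝 1) := by
  classical
  have up : ∀ N, c N ≤ N := fun N => Finset.sup_le fun A hA => by
    simpa using Finset.card_le_card (Finset.mem_powerset.1 (Finset.mem_filter.1 hA).1)
  rw [Metric.tendsto_atTop]
  intro ε hε
  obtain ⟨E0, hE0⟩ := exists_nat_gt (13 / ε)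
  obtain ⟨N0, h⟩ := H16.UF.main (E0 + 8) (by omega)
  refine ⟨N0 + 1, fun N hN => ?_⟩
  obtain ⟨A, hA1, hA2, hA3⟩ := h N (by omega)
  have h1 : A.card ≤ c N := Finset.le_sup (f := Finset.card)
    (Finset.mem_filter.2 ⟨Finset.mem_powerset.2 hA1, hA2⟩)
  have N0' : (0 : ℝ) < N := by exact_mod_cast (by omega : 0 < N)
  have h2 : (c N : ℝ) / N ≤ 1 := by
    rw [div_le_one N0']; exact_mod_cast up N
  have h3 : 1 - 13 / ((E0 + 8 : ℕ) : ℝ) ≤ (c N : ℝ) / N := by
    rw [le_div_iff₀ N0', mul_comm]; exact hA3.trans (by exact_mod_cast h1)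
  have h4 : 13 / ((E0 + 8 : ℕ) : ℝ) < ε := by
    rw [div_lt_iff₀ (by positivity)]; rw [div_lt_iff₀ hε] at hE0
    push_cast; nlinarith
  rw [Real.dist_eq, abs_lt]
  constructor <;> linarith

end Pool.Agent.Results.MP_47c171_nt.Asymp
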